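import Pool.Agent.Helper75.CR.St2

/-!
# Project CR (MP_265e56_al), module P2: the identities of the three element semilattice with involution
-/

set_option autoImplicit false

namespace Pool.Agent.Helper18.CR

open Pool.Agent.Helper75.CR Helper1.IM

/-- All letters of `u` have first component `true`. -/
def F1_P2 (e : ℕ → C3) (u : Wd) : Prop := ∀ a ∈ u, (evl SL3 e a : C3).val.1 = true

/-- All letters of `u` have second component `true`. -/
def F2_P2 (e : ℕ → C3) (u : Wd) : Prop := ∀ a ∈ u, (evl SL3 e a : C3).val.2 = true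

theorem mul_val_P2 (p q : C3) : (p * q).val = mul4 p.val q.val := rfl

theorem evl_false_P2 (e : ℕ → C3) (i : ℕ) : (evl SL3 e (i, false) : C3).val = (e i).val := rfl

theorem evl_true_P2 (e : ℕ → C3) (i : ℕ) : (evl SL3 e (i, true) : C3).val = ((e i).val.2, (e i).val.1) := rfl

theorem evr1_P2 (e : ℕ → C3) (u : Wd) : ∀ b : C3,
    (evr SL3 e b u : C3).val.1 = true ↔ b.val.1 = true ∧ F1_P2 e u := by
  induction u with
  | nil =>
    intro b
    have h : (evr SL3 e b [] : C3) = b := rfl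
    rw [h]
    simp [F1_P2]
  | cons a u ih =>
    intro b
    have h : (evr SL3 e b (a :: u) : C3) = evr SL3 e ((HMul.hMul : C3 → C3 → C3) b (evl SL3 e a)) u := rfl
    rw [h, ih, mul_val_P2]
    simp [F1_P2, mul4, and_assoc]

theorem evr2_P2 (e : ℕ → C3) (u : Wd) : ∀ b : C3,
    (evr SL3 e b u : C3).val.2 = true ↔ b.val.2 = true ∧ F2_P2 e u := by
  induction u with
  | nil =>
    intro b
    have h : (evr SL3 e b [] : C3) = b := rfl
    rw [h]
    simp [F2_P2]
  | cons a u ih =>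
    intro b
    have h : (evr SL3 e b (a :: u) : C3) = evr SL3 e ((HMul.hMul : C3 → C3 → C3) b (evl SL3 e a)) u := rfl
    rw [h, ih, mul_val_P2]
    simp [F2_P2, mul4, and_assoc]

theorem bool_ext_P2 {x y : Bool} (h : x = true ↔ y = true) : x = y := by
  cases x <;> cases y <;> simp_all

/-- Identities of `SL3` by components. -/
theorem id_P2 (u v : Wd) : Id' {SL3} u v ↔
    ((u = [] ↔ v = []) ∧ ∀ e : ℕ → C3, (F1_P2 e u ↔ F1_P2 e v) ∧ (F2_P2 e u ↔ F2_P2 e v)) := by
  constructor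
  · rintro ⟨h1, h2⟩
    refine ⟨h1, fun e => ?_⟩
    rcases u with _ | ⟨a, u'⟩
    · rw [h1.1 rfl]
      exact ⟨Iff.rfl, Iff.rfl⟩
    · rcases v with _ | ⟨b, v'⟩
      · exact absurd (h1.2 rfl) (by simp)
      · have h := h2 SL3 rfl e a b u' v' rfl rfl
        have e1 := evr1_P2 e u' (evl SL3 e a)
        have e2 := evr1_P2 e v' (evl SL3 e b)
        have e3 := evr2_P2 e u' (evl SL3 e a)
        have e4 := evr2_P2 e v' (evl SL3 e b)
        rw [h] at e1 e3
        constructor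
        · rw [F1_P2, F1_P2, List.forall_mem_cons, List.forall_mem_cons]
          exact e1.symm.trans e2
        · rw [F2_P2, F2_P2, List.forall_mem_cons, List.forall_mem_cons]
          exact e3.symm.trans e4
  · rintro ⟨h1, h2⟩
    refine ⟨h1, fun A hA e a b u' v' hu hv => ?_⟩
    have hA' : A = SL3 := hA
    subst hA'
    obtain ⟨f1, f2⟩ := h2 e
    have e1 := evr1_P2 e u' (evl SL3 e a)
    have e2 := evr1_P2 e v' (evl SL3 e b)
    have e3 := evr2_P2 e u' (evl SL3 e a)
    have e4 := evr2_P2 e v' (evl SL3 e b)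
    rw [hu, hv, F1_P2, F1_P2, List.forall_mem_cons, List.forall_mem_cons] at f1
    rw [hu, hv, F2_P2, F2_P2, List.forall_mem_cons, List.forall_mem_cons] at f2
    apply C3.ext'
    apply Prod.ext
    · exact bool_ext_P2 (e1.trans (f1.trans e2.symm))
    · exact bool_ext_P2 (e3.trans (f2.trans e4.symm))

/-- The test assignment of a word. -/
noncomputable def te_P2 (u : Wd) (i : ℕ) : C3 :=
  open Classical in
  if (i, false) ∈ u then ⟨(true, false), by decide⟩
  else if (i, true) ∈ u then ⟨(false, true), by decide⟩ else ⟨(false, false), by decide⟩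

theorem te_self_P2 {u : Wd} (hu : ¬ Prd u) : F1_P2 (te_P2 u) u := by
  rintro ⟨i, b⟩ ha
  cases b
  · rw [evl_false_P2, te_P2, if_pos ha]
  · have h : (i, false) ∉ u := fun h => hu ⟨i, h, ha⟩
    rw [evl_true_P2, te_P2, if_neg h, if_pos ha]

theorem te_mem_P2 {u v : Wd} (h : F1_P2 (te_P2 u) v) : ∀ a ∈ v, a ∈ u := by
  rintro ⟨i, b⟩ ha
  have h1 := h _ ha
  by_contra hc
  cases b
  · rw [evl_false_P2, te_P2, if_neg hc] at h1
    split_ifs at h1
  · rw [evl_true_P2, te_P2, if_neg hc] at h1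
    split_ifs at h1

theorem prd_F1_P2 {u : Wd} (hu : Prd u) (e : ℕ → C3) : ¬ F1_P2 e u := by
  obtain ⟨i, h1, h2⟩ := hu
  intro h
  have h3 := h _ h1
  have h4 := h _ h2
  rw [evl_false_P2] at h3
  rw [evl_true_P2] at h4
  exact (e i).nt ⟨h3, h4⟩

theorem prd_F2_P2 {u : Wd} (hu : Prd u) (e : ℕ → C3) : ¬ F2_P2 e u := by
  obtain ⟨i, h1, h2⟩ := hu
  intro h
  have h3 := h _ h1
  have h4 := h _ h2
  rw [evl_false_P2] at h3
  rw [evl_true_P2] at h4
  exact (e i).nt ⟨h4, h3⟩

/-- MODULE P2. -/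
theorem hP2 : StP2 := by
  intro θ
  constructor
  · intro hM
    have key : ∀ u v, θ.r u v → ¬ Prd u → ∀ a ∈ v, a ∈ u := by
      intro u v h hu
      exact te_mem_P2 ((((id_P2 u v).1 (hM u v h)).2 (te_P2 u)).1.1 (te_self_P2 hu))
    have key2 : ∀ u v, θ.r u v → ¬ Prd u → ¬ Prd v := by
      rintro u v h hu ⟨i, h1, h2⟩
      exact hu ⟨i, key u v h hu _ h1, key u v h hu _ h2⟩
    intro u v h
    by_cases hu : Prd u
    · left
      refine ⟨hu, ?_⟩
      by_contra hv
      exact key2 v u (θ.symm' h) hv hu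
    · right
      have hv := key2 u v h hu
      exact ⟨hu, hv, fun a => ⟨key v u (θ.symm' h) hv a, key u v h hu a⟩⟩
  · intro hS u v h
    rw [id_P2]
    refine ⟨⟨θ.ne' h, θ.ne' (θ.symm' h)⟩, fun e => ?_⟩
    rcases hS u v h with ⟨hu, hv⟩ | ⟨-, -, hsc⟩
    · exact ⟨⟨fun h => absurd h (prd_F1_P2 hu e), fun h => absurd h (prd_F1_P2 hv e)⟩,
        ⟨fun h => absurd h (prd_F2_P2 hu e), fun h => absurd h (prd_F2_P2 hv e)⟩⟩
    · exact ⟨⟨fun h a ha => h a ((hsc a).2 ha), fun h a ha => h a ((hsc a).1 ha)⟩,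
        ⟨fun h a ha => h a ((hsc a).2 ha), fun h a ha => h a ((hsc a).1 ha)⟩⟩

end Pool.Agent.Helper18.CR
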